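import Mathlib
import Pool.Agent.H32.DistCut

set_option autoImplicit false

namespace Pool.Agent.Results.MP_d015b4_co.Counter

/-- `K` is a cutset for `x`: its elements are incomparable to `x`, and `K ∪ {x}` meets every
maximal chain. -/
def IsCutsetFor {L : Type} [PartialOrder L] (x : L) (K : Finset L) : Prop :=
  (∀ k ∈ K, ¬ k ≤ x ∧ ¬ x ≤ k) ∧ ∀ C : Set L, IsMaxChain (· ≤ ·) C → ∃ c ∈ C, c = x ∨ c ∈ K

theorem result : ∃ (L : Type) (_ : DistribLattice L) (_ : Fintype L) (x : L) (m : ℕ),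
    IsLeast {k | ∃ K : Finset L, IsCutsetFor x K ∧ K.card = k} m ∧
    ¬ ∃ A : Finset L, IsMaxAntichain (· ≤ ·) (A : Set L) ∧ x ∈ A ∧ A.card = m + 1 := by
  open Pool.Agent.H32.DistCut in
  refine ⟨L, inferInstance, inferInstance, 25, 5, ⟨⟨K, ⟨by decide +kernel, cut⟩, by decide⟩, ?_⟩, ?_⟩
  · rintro _ ⟨T, h, rfl⟩
    exact lower T h.1 h.2
  · rintro ⟨A, h1, h2, h3⟩
    exact no_six A h1 h2 h3

end Pool.Agent.Results.MP_d015b4_co.Counter
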